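import Pool.Agent.Lib.MP_8829b8_gt.PFinal

set_option autoImplicit false

universe u

/-- Negative answer to Q1: there are a paracompact Hausdorff space `X` with a perfect map `p` (all
of whose fibres have exactly two points) onto a metrizable space `M`, a space `Y` with `X × Y`
normal, and a closed continuous surjection `f : Y → Z` such that `X × Z` is not normal. -/
theorem Pool.Agent.Results.MP_8829b8_gt.PSpaceFactor.result :
    ∃ (X Y Z M : Type u) (_ : TopologicalSpace X) (_ : TopologicalSpace Y)
      (_ : TopologicalSpace Z) (_ : TopologicalSpace M) (p : X → M) (f : Y → Z),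
      T2Space X ∧ ParacompactSpace X ∧ TopologicalSpace.MetrizableSpace M ∧
      Continuous p ∧ IsClosedMap p ∧ Function.Surjective p ∧
      (∀ m, IsCompact (p ⁻¹' {m}) ∧ (p ⁻¹' {m}).ncard = 2) ∧
      T4Space Y ∧ T4Space Z ∧ NormalSpace (X × Y) ∧
      Continuous f ∧ IsClosedMap f ∧ Function.Surjective f ∧ ¬ NormalSpace (X × Z) :=
  Pool.Agent.Lib.MP_8829b8_gt.PSp.exists_counterexample
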