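import Pool.Agent.Lib.MP_8829b8_gt.Final

set_option autoImplicit false

universe u

/-- Negative answer to Q2: there are a paracompact Hausdorff space `X` (with only one non-isolated
point), a space `Y` with `X × Y` normal, and a closed continuous surjection `f : Y → Z` such that
`X × Z` is not normal. All three spaces are normal and `T₁`. -/
theorem Pool.Agent.Results.MP_8829b8_gt.ParacompactFactor.result :
    ∃ (X Y Z : Type u) (_ : TopologicalSpace X) (_ : TopologicalSpace Y) (_ : TopologicalSpace Z)
      (f : Y → Z),
      T2Space X ∧ ParacompactSpace X ∧ (∃ x₀ : X, ∀ x, x ≠ x₀ → IsOpen ({x} : Set X)) ∧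
      T4Space Y ∧ T4Space Z ∧ NormalSpace (X × Y) ∧
      Continuous f ∧ IsClosedMap f ∧ Function.Surjective f ∧ ¬ NormalSpace (X × Z) :=
  Pool.Agent.Lib.MP_8829b8_gt.exists_counterexample
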